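import Pool.Agent.Helper76.TX.StU

/-!
# Project TU, module XA: the kernel of `ev` is killed by all Hecke words
-/

set_option autoImplicit false

namespace Pool.Agent.Helper81.TX

open Pool.Agent.Helper76.TX Pool.Agent.Helper14.CV Pool.Agent.Helper28.WK Pool.Agent.Helper78.TW

/-- the representatives `u std_P u⁻¹` -/
private def dU (l : ℕ) (P : Fin (l + 1)) : Matrix (Fin 2) (Fin 2) ℤ :=
  if (P : ℕ) < l then !![1, 2 * ((P : ℕ) : ℤ); 0, (l : ℤ)] else !![(l : ℤ), 0; 0, 1]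

private theorem dU_lt (l : ℕ) (P : Fin (l + 1)) (h : (P : ℕ) < l) :
    dU l P = !![1, 2 * ((P : ℕ) : ℤ); 0, (l : ℤ)] := if_pos h

private theorem dU_ge (l : ℕ) (P : Fin (l + 1)) (h : ¬ (P : ℕ) < l) :
    dU l P = !![(l : ℤ), 0; 0, 1] := if_neg h

private theorem hHkU (hHk : StHk) (R : Type) [AddCommGroup R] (n l : ℕ) (G : ℤ → ℤ → R)
    (hl : l.Prime) (h2 : l ≠ 2) (hG : Sym 0 n G) :
    EqC (Tl l 1 (act 2 0 0 1 G)) (act 2 0 0 1 (Tl l 1 G)) := by
  have hlz : Prime (l : ℤ) := Nat.prime_iff_prime_int.mp hl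
  have hl1 : ¬ (l : ℤ) ∣ 1 := by
    intro h
    exact hlz.not_isUnit (isUnit_of_dvd_one h)
  have hl2 : ¬ (l : ℤ) ∣ 2 := by
    intro h3
    have h4 : l ∣ 2 := by exact_mod_cast h3
    rcases (Nat.dvd_prime Nat.prime_two).1 h4 with h5 | h5
    · exact hl.one_lt.ne' h5
    · exact h2 h5
  have h1 := hHk R inferInstance n l G hl h2 hG (dU l) ?_ ?_ ?_
  · have h3 := h1.act (a := 2) (b := 0) (c := 0) (d := 1) (by simp)
    refine EqC.trans ?_ h3
    refine EqC.of_eq fun p q _ => ?_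
    unfold Tl act
    beta_reduce
    rw [Fin.sum_univ_castSucc, Finset.sum_range, add_comm]
    congr 1
    · refine Finset.sum_congr rfl fun i _ => ?_
      rw [dU_lt l _ (by simp)]
      simp only [Matrix.cons_val', Matrix.cons_val_zero, Matrix.cons_val_one, Matrix.of_apply,
        Matrix.cons_val_fin_one, Fin.val_castSucc]
      congr 1 <;> ring
    · rw [dU_ge l _ (by simp)]
      simp only [Matrix.cons_val', Matrix.cons_val_zero, Matrix.cons_val_one, Matrix.of_apply,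
        Matrix.cons_val_fin_one]
      congr 1 <;> ring
  · intro P
    by_cases h : (P : ℕ) < l
    · rw [dU_lt l P h, Matrix.det_fin_two_of]
      ring
    · rw [dU_ge l P h, Matrix.det_fin_two_of]
      ring
  · intro P
    by_cases h : (P : ℕ) < l
    · rw [dU_lt l P h]
      show (2 : ℤ) ^ n ∣ 0
      exact dvd_zero _
    · rw [dU_ge l P h]
      show (2 : ℤ) ^ n ∣ 0
      exact dvd_zero _
  · intro P P' hP hd
    by_cases h : (P : ℕ) < l
    · by_cases h' : (P' : ℕ) < l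
      · rw [dU_lt l P h, dU_lt l P' h', Matrix.adjugate_fin_two_of] at hd
        have h3 := hd 0 1
        simp only [Matrix.mul_apply, Fin.sum_univ_two, Matrix.cons_val', Matrix.cons_val_zero,
          Matrix.cons_val_one, Matrix.of_apply, Matrix.cons_val_fin_one] at h3
        have h4 : (l : ℤ) ∣ 2 * (((P : ℕ) : ℤ) - ((P' : ℕ) : ℤ)) := by
          convert h3 using 1
          ring
        rcases hlz.dvd_or_dvd h4 with h5 | h5
        · exact hl2 h5
        · have h6 : (((P : ℕ) : ℤ) - ((P' : ℕ) : ℤ)) = 0 := by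
            apply Int.eq_zero_of_abs_lt_dvd h5
            rw [abs_lt]
            omega
          apply hP
          apply Fin.ext
          omega
      · rw [dU_lt l P h, dU_ge l P' h', Matrix.adjugate_fin_two_of] at hd
        have h3 := hd 0 0
        simp only [Matrix.mul_apply, Fin.sum_univ_two, Matrix.cons_val', Matrix.cons_val_zero,
          Matrix.cons_val_one, Matrix.of_apply, Matrix.cons_val_fin_one] at h3
        apply hl1
        convert h3 using 1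
        ring
    · by_cases h' : (P' : ℕ) < l
      · rw [dU_ge l P h, dU_lt l P' h', Matrix.adjugate_fin_two_of] at hd
        have h3 := hd 1 1
        simp only [Matrix.mul_apply, Fin.sum_univ_two, Matrix.cons_val', Matrix.cons_val_zero,
          Matrix.cons_val_one, Matrix.of_apply, Matrix.cons_val_fin_one] at h3
        apply hl1
        convert h3 using 1
        ring
      · apply hP
        apply Fin.ext
        have e1 := P.isLt
        have e2 := P'.isLt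
        omega

/-! ### Hecke words -/

private theorem TW_cons (l : ℕ) (L : List ℕ) (G : ℤ → ℤ → ℂ) :
    TW (l :: L) G = Tl l 1 (TW L G) := rfl

private theorem TW_add (L : List ℕ) (G H : ℤ → ℤ → ℂ) : TW L (G + H) = TW L G + TW L H := by
  induction L with
  | nil => rfl
  | cons l L ih => rw [TW_cons, TW_cons, TW_cons, ih, Tl_add]

private theorem TW_neg (L : List ℕ) (G : ℤ → ℤ → ℂ) : TW L (-G) = -TW L G := by
  induction L with
  | nil => rfl
  | cons l L ih => rw [TW_cons, TW_cons, ih, Tl_neg]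

private theorem TW_eqC (L : List ℕ) (hL : ∀ l ∈ L, l.Prime ∧ l ≠ 2) {G H : ℤ → ℤ → ℂ}
    (h : EqC G H) : EqC (TW L G) (TW L H) := by
  induction L with
  | nil => exact h
  | cons l L ih =>
    have h1 := ih fun x hx => hL x (List.mem_cons_of_mem l hx)
    exact h1.Tl (hL l List.mem_cons_self).1.pos 1

private theorem TW_comm {n : ℕ} {a b c d : ℤ} (hHkS : StHkS)
    (hC : ∀ l : ℕ, l.Prime → l ≠ 2 → ∀ G : ℤ → ℤ → ℂ, Sym 0 n G →
      EqC (Tl l 1 (act a b c d G)) (act a b c d (Tl l 1 G)))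
    (L : List ℕ) (hL : ∀ l ∈ L, l.Prime ∧ l ≠ 2) (G : ℤ → ℤ → ℂ) (hG : Sym 0 n G) :
    EqC (TW L (act a b c d G)) (act a b c d (TW L G)) ∧ Sym 0 n (TW L G) := by
  induction L with
  | nil => exact ⟨EqC.refl _, hG⟩
  | cons l L ih =>
    obtain ⟨h1, h2⟩ := ih fun x hx => hL x (List.mem_cons_of_mem l hx)
    obtain ⟨hp, hp2⟩ := hL l List.mem_cons_self
    exact ⟨(h1.Tl hp.pos 1).trans (hC l hp hp2 _ h2), hHkS ℂ inferInstance n l _ hp hp2 h2⟩

/-- the value at the path from `0` to `∞` -/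
private noncomputable def eL (L : List ℕ) (G : ℤ → ℤ → ℂ) : ℂ := TW L G 1 0 - TW L G 0 1

private theorem eL_add (L : List ℕ) (G H : ℤ → ℤ → ℂ) : eL L (G + H) = eL L G + eL L H := by
  unfold eL
  rw [TW_add]
  simp only [Pi.add_apply]
  ring

private theorem eL_neg (L : List ℕ) (G : ℤ → ℤ → ℂ) : eL L (-G) = -eL L G := by
  unfold eL
  rw [TW_neg]
  simp only [Pi.neg_apply]
  ring

private theorem eL_sub (L : List ℕ) (G H : ℤ → ℤ → ℂ) : eL L (G - H) = eL L G - eL L H := by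
  rw [sub_eq_add_neg, eL_add, eL_neg, sub_eq_add_neg]

private theorem eL_congr (L : List ℕ) (hL : ∀ l ∈ L, l.Prime ∧ l ≠ 2) {G H : ℤ → ℤ → ℂ}
    (h : EqC G H) : eL L G = eL L H :=
  (TW_eqC L hL h).diff (Or.inl one_ne_zero) (Or.inr one_ne_zero)

private theorem hom_neg {n : ℕ} {H : ℤ → ℤ → ℂ} (hH : Sym 0 n H) : H (-1) 0 = H 1 0 := by
  have := hH.1 (-1) 1 0 (by norm_num) (Or.inl one_ne_zero)
  simpa using this

private theorem eL_W (hHkS : StHkS) (hHkW : StHkW) {n : ℕ} (L : List ℕ)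
    (hL : ∀ l ∈ L, l.Prime ∧ l ≠ 2) (G : ℤ → ℤ → ℂ) (hG : Sym 0 n G) :
    eL L (act 0 (-1) (2 ^ n) 0 G) = -eL L G := by
  obtain ⟨hE, hH⟩ := TW_comm (a := 0) (b := -1) (c := 2 ^ n) (d := 0) hHkS
    (fun l hp h2 G hG => hHkW ℂ inferInstance n l G hp h2 hG) L hL G hG
  have h1 := hE.diff (p := 1) (q := 0) (p' := 0) (q' := 1) (Or.inl one_ne_zero)
    (Or.inr one_ne_zero)
  have h2 : TW L G 0 (2 ^ n) = TW L G 0 1 := by
    have := hH.1 (2 ^ n) 0 1 (by positivity) (Or.inr one_ne_zero)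
    simpa using this
  unfold eL
  rw [h1]
  simp only [act, zero_mul, mul_zero, mul_one, zero_add, add_zero]
  rw [h2, hom_neg hH]
  ring

private theorem eL_S (hHkS : StHkS) (hHkT : StHkT) {n : ℕ} (L : List ℕ)
    (hL : ∀ l ∈ L, l.Prime ∧ l ≠ 2) (G : ℤ → ℤ → ℂ) (hG : Sym 0 n G) :
    eL L (act (-1) 0 0 1 G) = eL L G := by
  obtain ⟨hE, hH⟩ := TW_comm (a := -1) (b := 0) (c := 0) (d := 1) hHkS
    (fun l hp h2 G hG => hHkT ℂ inferInstance n l G hp h2 hG) L hL G hG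
  have h1 := hE.diff (p := 1) (q := 0) (p' := 0) (q' := 1) (Or.inl one_ne_zero)
    (Or.inr one_ne_zero)
  unfold eL
  rw [h1]
  simp only [act, zero_mul, mul_zero, mul_one, zero_add, add_zero, one_mul]
  rw [hom_neg hH]

private theorem eL_U (hHk : StHk) (hHkS : StHkS) {n : ℕ} (L : List ℕ)
    (hL : ∀ l ∈ L, l.Prime ∧ l ≠ 2) (G : ℤ → ℤ → ℂ) (hG : Sym 0 n G) :
    eL L (act 2 0 0 1 G) = eL L G := by
  obtain ⟨hE, hH⟩ := TW_comm (a := 2) (b := 0) (c := 0) (d := 1) hHkS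
    (fun l hp h2 G hG => hHkU hHk ℂ n l G hp h2 hG) L hL G hG
  have h1 := hE.diff (p := 1) (q := 0) (p' := 0) (q' := 1) (Or.inl one_ne_zero)
    (Or.inr one_ne_zero)
  have h2 : TW L G 2 0 = TW L G 1 0 := by
    have := hH.1 2 1 0 (by norm_num) (Or.inl one_ne_zero)
    simpa using this
  unfold eL
  rw [h1]
  simp only [act, zero_mul, mul_zero, mul_one, zero_add, add_zero, one_mul]
  rw [h2]

theorem hXa : StXa := by
  intro hHk hHkS hHkW hHkT hNrm hCom hEv hK n G hn hG hev L hL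
  have hn2 : 2 ≤ n := by omega
  -- `H1 = G - W G`
  have hWG : Sym 0 n (act 0 (-1) (2 ^ n) 0 G) := (hNrm n G hn2 hG).1
  obtain ⟨H1, hH1⟩ : ∃ H1 : ℤ → ℤ → ℂ, H1 = G + -act 0 (-1) (2 ^ n) 0 G := ⟨_, rfl⟩
  have sH1 : Sym 0 n H1 := by
    rw [hH1]
    exact hG.add hWG.neg
  have sSH1 : Sym 0 n (act (-1) 0 0 1 H1) := (hNrm n H1 hn2 sH1).2.2.2
  -- `H2 = H1 + * H1`
  obtain ⟨H2, hH2⟩ : ∃ H2 : ℤ → ℤ → ℂ, H2 = H1 + act (-1) 0 0 1 H1 := ⟨_, rfl⟩
  have sH2 : Sym 0 n H2 := by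
    rw [hH2]
    exact sH1.add sSH1
  obtain ⟨-, -, cWW, -⟩ := hCom n G hn hG
  obtain ⟨-, -, -, cSS, -, -, -, -, -, cWS⟩ := hCom n H1 hn sH1
  have w1 : EqC (act 0 (-1) (2 ^ n) 0 H1) (-H1) := by
    rw [hH1]
    have e := (EqC.refl (act 0 (-1) (2 ^ n) 0 G)).add cWW.neg
    have e2 : -(G + -act 0 (-1) (2 ^ n) 0 G) = act 0 (-1) (2 ^ n) 0 G + -G := by
      rw [neg_add, neg_neg, add_comm]
    rw [e2]
    exact e
  have hdS : ((-1 : ℤ) * 1 - 0 * 0) ≠ 0 := by norm_num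
  have w2 : EqC (act 0 (-1) (2 ^ n) 0 (act (-1) 0 0 1 H1)) (-act (-1) 0 0 1 H1) :=
    cWS.trans (w1.act hdS)
  have wH2 : EqC (act 0 (-1) (2 ^ n) 0 H2) (-H2) := by
    rw [hH2, act_add, neg_add]
    exact w1.add w2
  have sS : EqC (act (-1) 0 0 1 H2) H2 := by
    rw [hH2, act_add]
    have e := (EqC.refl (act (-1) 0 0 1 H1)).add cSS
    rw [add_comm H1]
    exact e
  have ev1 : ∀ i j : ℕ, ev 1 H1 i j = 0 := by
    intro i j
    rw [hH1, ev_add, ev_neg, (hEv n G hn2 hG i j).1, hev i j]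
    ring
  have ev2 : ∀ i j : ℕ, ev 1 H2 i j = 0 := by
    intro i j
    rw [hH2, ev_add, (hEv n H1 hn2 sH1 i j).2, ev1 i j]
    ring
  obtain ⟨ψ, sψ, hψ⟩ := hK n H2 hn sH2 wH2 sS ev2
  have z : eL L H2 = 0 := by
    rw [← eL_congr L hL hψ, eL_sub, eL_U hHk hHkS L hL ψ sψ, sub_self]
  have z1 : eL L H1 = eL L G + eL L G := by
    rw [hH1, eL_add, eL_neg, eL_W hHkS hHkW L hL G hG, neg_neg]
  have z2 : eL L H2 = eL L H1 + eL L H1 := by
    rw [hH2, eL_add, eL_S hHkS hHkT L hL H1 sH1]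
  have z3 : eL L G = 0 := by
    have e4 : (4 : ℂ) * eL L G = 0 := by
      rw [← z, z2, z1]
      ring
    exact (mul_eq_zero.mp e4).resolve_left (by norm_num)
  exact sub_eq_zero.mp z3

end Pool.Agent.Helper81.TX
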